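import Mathlib
import Pool.Agent.Results.MP_162c7e_co.SevenModEight

set_option autoImplicit false

namespace Pool.Agent.Results.MP_845d9b_co.SevenModEight

open Pool.Agent.Results.MP_162c7e_co.SevenModEight (cseq cseq_spec cseq_inj bseq_inj dseq_inj
  small_dvd not_primePow)

/-- A neofield on the type `J`: `(J, +)` is a loop with identity `0`, the nonzero elements form a
group under multiplication, and both distributive laws hold. -/
structure Neofield (J : Type) where
  add : J → J → J
  mul : J → J → J
  zero : J
  one : J
  zero_add : ∀ a, add zero a = a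
  add_zero : ∀ a, add a zero = a
  left_solve : ∀ a b, ∃! y, add a y = b
  right_solve : ∀ a b, ∃! y, add y a = b
  one_ne_zero : one ≠ zero
  mul_ne_zero : ∀ a b, a ≠ zero → b ≠ zero → mul a b ≠ zero
  mul_assoc : ∀ a b c, a ≠ zero → b ≠ zero → c ≠ zero → mul (mul a b) c = mul a (mul b c)
  one_mul : ∀ a, a ≠ zero → mul one a = a
  mul_one : ∀ a, a ≠ zero → mul a one = a
  exists_inv : ∀ a, a ≠ zero → ∃ b, b ≠ zero ∧ mul a b = one ∧ mul b a = one
  left_distrib : ∀ a b c, mul a (add b c) = add (mul a b) (mul a c)
  right_distrib : ∀ a b c, mul (add b c) a = add (mul b a) (mul c a)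

/-- powers of an element of a neofield -/
def Neofield.pow {J : Type} (S : Neofield J) (x : J) : ℕ → J
  | 0 => S.one
  | n + 1 => S.mul (S.pow x n) x

/-- `1 + x ^ t` -/
def Neofield.onePlus {J : Type} (S : Neofield J) (x : J) (t : ℕ) : J :=
  S.add S.one (S.pow x t)

/-- The multiplicative group of the neofield is cyclic with generator `x`, and the divisibility
property holds with respect to `x`: if the quotients `(1 + x ^ (t + 1)) / (1 + x ^ t)` and
`(1 + x ^ (u + 1)) / (1 + x ^ u)` are defined (all four terms are nonzero) and equal (to `q`),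
then `t` and `u` are the same exponent of `x`. -/
def Neofield.IsDWith {J : Type} (S : Neofield J) (x : J) : Prop :=
  x ≠ S.zero ∧ (∀ y, y ≠ S.zero → ∃ n : ℕ, y = S.pow x n) ∧
    ∀ (t u : ℕ) (q : J), S.onePlus x t ≠ S.zero → S.onePlus x (t + 1) ≠ S.zero →
      S.onePlus x u ≠ S.zero → S.onePlus x (u + 1) ≠ S.zero →
      S.onePlus x (t + 1) = S.mul q (S.onePlus x t) →
      S.onePlus x (u + 1) = S.mul q (S.onePlus x u) → S.pow x t = S.pow x u

/-- There is a D-neofield of order `r`. -/
def DNeofieldOrder (r : ℕ) : Prop :=
  ∃ (J : Type) (S : Neofield J), Nat.card J = r ∧ ∃ x : J, S.IsDWith x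

section construction

variable {m : ℕ}

/-- multiplication by `x ^ a` on `{0} ∪ {x ^ i}` written with exponents -/
def sh (a : ZMod m) (y : Option (ZMod m)) : Option (ZMod m) := y.map (fun z => a + z)

@[simp] theorem sh_none (a : ZMod m) : sh a none = none := rfl
@[simp] theorem sh_some (a b : ZMod m) : sh a (some b) = some (a + b) := rfl

theorem sh_sh (a b : ZMod m) (y : Option (ZMod m)) : sh a (sh b y) = sh (a + b) y := by
  cases y with
  | none => rfl
  | some z => simp [add_assoc]

theorem sh_zero (y : Option (ZMod m)) : sh 0 y = y := by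
  cases y with
  | none => rfl
  | some z => simp

theorem sh_eq_iff (a : ZMod m) (y z : Option (ZMod m)) : sh a y = z ↔ y = sh (-a) z := by
  constructor
  · rintro rfl; rw [sh_sh, neg_add_cancel, sh_zero]
  · rintro rfl; rw [sh_sh, add_neg_cancel, sh_zero]

/-- addition: `x ^ a + y = x ^ a (1 + x ^ (-a) y)` -/
def nadd (T : Option (ZMod m) → Option (ZMod m)) : Option (ZMod m) → Option (ZMod m) →
    Option (ZMod m)
  | none, y => y
  | some a, y => sh a (T (sh (-a) y))

def nmul : Option (ZMod m) → Option (ZMod m) → Option (ZMod m)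
  | none, _ => none
  | some a, y => sh a y

theorem nmul_comm (a b : Option (ZMod m)) : nmul a b = nmul b a := by
  cases a with
  | none => cases b <;> rfl
  | some a => cases b with
    | none => rfl
    | some b => simp [nmul, add_comm]

theorem nmul_ladd (T : Option (ZMod m) → Option (ZMod m)) (a b c : Option (ZMod m)) :
    nmul a (nadd T b c) = nadd T (nmul a b) (nmul a c) := by
  cases a with
  | none => rfl
  | some a => cases b with
    | none => rfl
    | some b =>
      simp only [nmul, nadd, sh_some, sh_sh]
      congr 2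
      congr 1
      ring

/-- the neofield attached to a one-plus map `T` -/
def mk [NeZero m] (T : Option (ZMod m) → Option (ZMod m)) (h0 : T none = some 0)
    (hT : Function.Injective T) (hfix : ∀ k, T (some k) ≠ some k)
    (hR : ∀ k k' v v', T (some k) = some v → T (some k') = some v' → v - k = v' - k' → k = k') :
    Neofield (Option (ZMod m)) where
  add := nadd T
  mul := nmul
  zero := none
  one := some 0
  zero_add := fun _ => rfl
  add_zero := by
    intro a
    cases a with
    | none => rfl
    | some a => simp [nadd, h0]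
  left_solve := by
    intro a b
    have hbij : Function.Bijective (nadd T a) := by
      apply Finite.injective_iff_bijective.1
      intro y z h
      cases a with
      | none => exact h
      | some a =>
        simp only [nadd] at h
        rw [sh_eq_iff, sh_sh, neg_add_cancel, sh_zero] at h
        have h1 := hT h
        rw [sh_eq_iff, sh_sh, neg_add_cancel, sh_zero] at h1
        exact h1
    exact hbij.existsUnique b
  right_solve := by
    intro a b
    have hbij : Function.Bijective (fun y => nadd T y a) := by
      apply Finite.injective_iff_bijective.1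
      intro y z h
      cases a with
      | none =>
        have e : ∀ w, nadd T w none = w := by
          intro w
          cases w with
          | none => rfl
          | some w => simp [nadd, h0]
        simpa only [e] using h
      | some a =>
        have e1 : nadd T none (some a) = some a := rfl
        have e2 : ∀ j, nadd T (some j) (some a) = sh j (T (some (-j + a))) := fun _ => rfl
        cases y with
        | none => cases z with
          | none => rfl
          | some j =>
            exfalso
            simp only [e1, e2] at h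
            have h2 := (sh_eq_iff _ _ _).1 h.symm
            rw [sh_some] at h2
            exact hfix _ h2
        | some i => cases z with
          | none =>
            exfalso
            simp only [e1, e2] at h
            have h2 := (sh_eq_iff _ _ _).1 h
            rw [sh_some] at h2
            exact hfix _ h2
          | some j =>
            simp only [e2] at h
            rcases hi : T (some (-i + a)) with _ | v
            · rcases hj : T (some (-j + a)) with _ | w
              · have := hT (hi.trans hj.symm)
                simp only [Option.some.injEq, add_left_inj, neg_inj] at this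
                rw [this]
              · rw [hi, hj] at h; simp at h
            · rcases hj : T (some (-j + a)) with _ | w
              · rw [hi, hj] at h; simp at h
              · rw [hi, hj] at h
                simp only [sh_some, Option.some.injEq] at h
                have := hR _ _ _ _ hi hj (by linear_combination h)
                simp only [add_left_inj, neg_inj] at this
                rw [this]
    exact hbij.existsUnique b
  one_ne_zero := by simp
  mul_ne_zero := by
    intro a b ha hb
    cases a with
    | none => exact absurd rfl ha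
    | some a => cases b with
      | none => exact absurd rfl hb
      | some b => simp [nmul]
  mul_assoc := by
    intro a b c _ _ _
    cases a with
    | none => rfl
    | some a => cases b with
      | none => rfl
      | some b => simp only [nmul, sh_some, sh_sh]
  one_mul := by
    intro a _
    exact sh_zero a
  mul_one := by
    intro a _
    rw [nmul_comm]
    exact sh_zero a
  exists_inv := by
    intro a ha
    cases a with
    | none => exact absurd rfl ha
    | some a => exact ⟨some (-a), by simp, by simp [nmul], by simp [nmul]⟩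
  left_distrib := nmul_ladd T
  right_distrib := by
    intro a b c
    rw [nmul_comm, nmul_ladd, nmul_comm a b, nmul_comm a c]

theorem card_option (m : ℕ) [NeZero m] : Nat.card (Option (ZMod m)) = m + 1 := by
  rw [Nat.card_eq_fintype_card, Fintype.card_option, ZMod.card]

theorem isD [NeZero m] (T : Option (ZMod m) → Option (ZMod m)) (h0 : T none = some 0)
    (hT : Function.Injective T) (hfix : ∀ k, T (some k) ≠ some k)
    (hR : ∀ k k' v v', T (some k) = some v → T (some k') = some v' → v - k = v' - k' → k = k')
    (hD : ∀ t u v v' w w', T (some t) = some v → T (some (t + 1)) = some v' →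
      T (some u) = some w → T (some (u + 1)) = some w' → v' - v = w' - w → t = u) :
    (mk T h0 hT hfix hR).IsDWith (some 1) := by
  have hpow : ∀ n : ℕ, (mk T h0 hT hfix hR).pow (some 1) n = some (n : ZMod m) := by
    intro n
    induction n with
    | zero => simp [Neofield.pow, mk]
    | succ n ih =>
      rw [Neofield.pow, ih]
      simp [mk, nmul]
  have hone : ∀ n : ℕ, (mk T h0 hT hfix hR).onePlus (some 1) n = T (some (n : ZMod m)) := by
    intro n
    rw [Neofield.onePlus, hpow]
    change nadd T (some 0) (some (n : ZMod m)) = _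
    simp only [nadd, neg_zero, sh_zero]
  refine ⟨by simp [mk], ?_, ?_⟩
  · intro y hy
    cases y with
    | none => exact absurd rfl hy
    | some k => exact ⟨k.val, by rw [hpow, ZMod.natCast_zmod_val]⟩
  · intro t u q h1 h2 h3 h4 h5 h6
    rw [hpow, hpow]
    rw [hone, hone] at h5 h6
    rw [hone] at h1 h2 h3 h4
    push_cast at h2 h4 h5 h6
    have e0 : (mk T h0 hT hfix hR).zero = none := rfl
    rw [e0] at h1 h2 h3 h4
    obtain ⟨v, hv⟩ := Option.ne_none_iff_exists'.1 h1
    obtain ⟨v', hv'⟩ := Option.ne_none_iff_exists'.1 h2
    obtain ⟨w, hw⟩ := Option.ne_none_iff_exists'.1 h3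
    obtain ⟨w', hw'⟩ := Option.ne_none_iff_exists'.1 h4
    rw [hv, hv'] at h5
    rw [hw, hw'] at h6
    change some v' = nmul q (some v) at h5
    change some w' = nmul q (some w) at h6
    cases q with
    | none => simp [nmul] at h5
    | some q =>
      simp only [nmul, sh_some, Option.some.injEq] at h5 h6
      rw [hD _ _ _ _ _ _ hv hv' hw hw' (by rw [h5, h6]; ring)]

end construction

/-- the value missed by the sequence, and the value missed by `c i - i` -/
theorem cseq_miss (n i : ℕ) (hi : i < 8 * n + 5) :
    ¬ ((8 * n + 6 : ℕ) : ℤ) ∣ cseq i - 4 * n := by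
  intro h
  obtain ⟨s, hs⟩ := cseq_spec i
  rcases hs with hs | hs | hs | hs | hs | hs | hs | hs <;>
  · obtain ⟨h1, h2, -⟩ := hs
    rw [h2] at h
    rcases small_dvd _ _ (by omega) h (by omega) (by omega) with h3 | h3 | h3 | h3 | h3 | h3 | h3 <;>
    omega

theorem bseq_miss (n i : ℕ) (hi : i < 8 * n + 5) :
    ¬ ((8 * n + 6 : ℕ) : ℤ) ∣ cseq i - i + 2 := by
  intro h
  obtain ⟨s, hs⟩ := cseq_spec i
  rcases hs with hs | hs | hs | hs | hs | hs | hs | hs <;>
  · obtain ⟨h1, h2, -⟩ := hs
    rw [h2] at h
    rcases small_dvd _ _ (by omega) h (by omega) (by omega) with h3 | h3 | h3 | h3 | h3 | h3 | h3 <;>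
    omega

/-- the index `i` of the exponent `k`, so that `k = 4 n + 4 + i` -/
def idx (n : ℕ) (k : ZMod (8 * n + 6)) : ℕ := (k - ((4 * n + 4 : ℕ) : ZMod (8 * n + 6))).val

/-- the map `y ↦ 1 + y` -/
def T (n : ℕ) : Option (ZMod (8 * n + 6)) → Option (ZMod (8 * n + 6))
  | none => some 0
  | some k => if idx n k = 8 * n + 5 then none
      else some ((cseq (idx n k) - 4 * n : ℤ) : ZMod (8 * n + 6))

theorem idx_lt (n : ℕ) (k : ZMod (8 * n + 6)) : idx n k < 8 * n + 6 := ZMod.val_lt _

theorem idx_spec (n : ℕ) (k : ZMod (8 * n + 6)) :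
    k = ((idx n k : ℕ) : ZMod (8 * n + 6)) + ((4 * n + 4 : ℕ) : ZMod (8 * n + 6)) := by
  rw [idx, ZMod.natCast_zmod_val]; ring

theorem idx_inj (n : ℕ) (k l : ZMod (8 * n + 6)) (h : idx n k = idx n l) : k = l := by
  rw [idx_spec n k, idx_spec n l, h]

theorem idx_succ (n : ℕ) (k : ZMod (8 * n + 6)) (h : idx n k ≠ 8 * n + 5) :
    idx n (k + 1) = idx n k + 1 := by
  have h1 := idx_lt n k
  have h2 : (k + 1 - ((4 * n + 4 : ℕ) : ZMod (8 * n + 6))) =
      ((idx n k + 1 : ℕ) : ZMod (8 * n + 6)) := by
    have := idx_spec n k
    push_cast at this ⊢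
    linear_combination this
  rw [idx, h2, ZMod.val_natCast, Nat.mod_eq_of_lt (by omega)]

theorem T_some (n : ℕ) (k v : ZMod (8 * n + 6)) (h : T n (some k) = some v) :
    idx n k < 8 * n + 5 ∧ v = ((cseq (idx n k) - 4 * n : ℤ) : ZMod (8 * n + 6)) := by
  have h1 := idx_lt n k
  simp only [T] at h
  split_ifs at h with h2
  exact ⟨by omega, (Option.some.inj h).symm⟩

theorem T_none (n : ℕ) (k : ZMod (8 * n + 6)) (h : T n (some k) = none) :
    idx n k = 8 * n + 5 := by
  simp only [T] at h
  split_ifs at h with h2
  exact h2

theorem T_injective (n : ℕ) : Function.Injective (T n) := by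
  intro y z h
  cases y with
  | none => cases z with
    | none => rfl
    | some k =>
      exfalso
      obtain ⟨h1, h2⟩ := T_some n k 0 h.symm
      have h3 := (ZMod.intCast_zmod_eq_zero_iff_dvd _ _).1 h2.symm
      exact cseq_miss n _ h1 h3
  | some k => cases z with
    | none =>
      exfalso
      obtain ⟨h1, h2⟩ := T_some n k 0 h
      have h3 := (ZMod.intCast_zmod_eq_zero_iff_dvd _ _).1 h2.symm
      exact cseq_miss n _ h1 h3
    | some l =>
      rcases hk : T n (some k) with _ | v
      · rw [hk] at h
        rw [idx_inj n k l ((T_none n k hk).trans (T_none n l h.symm).symm)]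
      · rw [hk] at h
        obtain ⟨h1, h2⟩ := T_some n k v hk
        obtain ⟨h3, h4⟩ := T_some n l v h.symm
        rw [h2, ZMod.intCast_eq_intCast_iff_dvd_sub] at h4
        have h5 := cseq_inj n (idx n l) (idx n k) h3 h1 (by
          have e : cseq (idx n l) - 4 * (n : ℤ) - (cseq (idx n k) - 4 * n) =
            cseq (idx n l) - cseq (idx n k) := by ring
          rw [← e]; exact h4)
        rw [idx_inj n k l h5.symm]

theorem T_fix (n : ℕ) (k : ZMod (8 * n + 6)) : T n (some k) ≠ some k := by
  intro h
  obtain ⟨h1, h2⟩ := T_some n k k h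
  have h3 := idx_spec n k
  have h4 : ((cseq (idx n k) - (idx n k : ℕ) + 2 - ((8 * n + 6 : ℕ) : ℤ) : ℤ) :
      ZMod (8 * n + 6)) = 0 := by
    have h3' : ((cseq (idx n k) - 4 * n - (idx n k : ℕ) - (4 * n + 4 : ℕ) : ℤ) :
      ZMod (8 * n + 6)) = 0 := by
      push_cast at h2 h3 ⊢
      linear_combination h3 - h2
    convert h3' using 2
    push_cast; ring
  have h5 := (ZMod.intCast_zmod_eq_zero_iff_dvd _ _).1 h4
  exact bseq_miss n _ h1 ((dvd_sub_right (dvd_refl _)).1 ((dvd_neg.2 h5).trans (by
    rw [neg_sub])))

theorem T_R (n : ℕ) (k l v w : ZMod (8 * n + 6)) (hk : T n (some k) = some v)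
    (hl : T n (some l) = some w) (h : v - k = w - l) : k = l := by
  obtain ⟨h1, h2⟩ := T_some n k v hk
  obtain ⟨h3, h4⟩ := T_some n l w hl
  apply idx_inj n
  apply bseq_inj n _ _ h1 h3
  rw [← ZMod.intCast_zmod_eq_zero_iff_dvd]
  have hk' := idx_spec n k
  have hl' := idx_spec n l
  push_cast at h2 h4 hk' hl' ⊢
  linear_combination h - h2 + h4 + hk' - hl'

theorem T_D (n : ℕ) (t u v v' w w' : ZMod (8 * n + 6)) (h1 : T n (some t) = some v)
    (h2 : T n (some (t + 1)) = some v') (h3 : T n (some u) = some w)
    (h4 : T n (some (u + 1)) = some w') (h : v' - v = w' - w) : t = u := by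
  obtain ⟨a1, a2⟩ := T_some n _ _ h1
  obtain ⟨b1, b2⟩ := T_some n _ _ h2
  obtain ⟨c1, c2⟩ := T_some n _ _ h3
  obtain ⟨d1, d2⟩ := T_some n _ _ h4
  rw [idx_succ n t (by omega)] at b1 b2
  rw [idx_succ n u (by omega)] at d1 d2
  apply idx_inj n
  apply dseq_inj n _ _ (by omega) (by omega)
  rw [← ZMod.intCast_zmod_eq_zero_iff_dvd]
  push_cast at a2 b2 c2 d2 ⊢
  linear_combination h - b2 + a2 + d2 - c2

/-- There is a D-neofield of every order `r ≡ 7 (mod 8)`; the orders `24 k + 15 ≡ 7 (mod 8)` are
not prime powers. -/
theorem result : (∀ r : ℕ, r % 8 = 7 → DNeofieldOrder r) ∧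
    (∀ k : ℕ, ¬ IsPrimePow (24 * k + 15)) := by
  refine ⟨?_, not_primePow⟩
  intro r hr
  obtain ⟨n, rfl⟩ : ∃ n, r = 8 * n + 7 := ⟨r / 8, by omega⟩
  exact ⟨Option (ZMod (8 * n + 6)), mk (T n) rfl (T_injective n) (T_fix n) (T_R n),
    card_option (8 * n + 6), some 1,
    isD (T n) rfl (T_injective n) (T_fix n) (T_R n) (T_D n)⟩

end Pool.Agent.Results.MP_845d9b_co.SevenModEight
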